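import Pool.Agent.Y869.NP.Gen
import Pool.Agent.Y869.NP.Up

set_option autoImplicit false

/-!
# The density of sets avoiding near arithmetic progressions: exact order of magnitude

`g t n` is the quantity `g_t(n)` of the problem. Let `r t M` be the largest size of a subset of
`{0, ..., M-1}` without a progression of `t-1` terms whose difference is a power of two, and let
`rho t` be the limit of `r t M / M`. We prove that, for every `t >= 3`,

* `g_t(n) = (log n)^(log_2 (rho t) + o(1))`, with a lower bound of exactly this order;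
* `rho 3 = 1/3`, `rho t = (t-2)/(t-1)` for even `t`, and
  `(t-3)/(t-2) <= rho t <= (t-2)/(t-1)` for odd `t >= 5`;
* for `t = 3` and for even `t` the order `(log n)^(log_2 (rho t))` is exact up to constants.

In particular the inequality of Q1 fails for every `t >= 3` and all large `n`.
-/

namespace Pool.Agent.Results.MP_0426f4_nt.ExactOrder

open Pool.Agent.Y869.NP Filter Topology

/-- `A` nearly contains a `(t,d,w)`-progression: for some `b` the set `A` meets the block
`[b + i d, b + i d + w]` for each `i = 1, ..., t-1`. -/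
def NearlyContains (A : Finset ℕ) (t d w : ℕ) : Prop :=
  ∃ b : ℕ, ∀ i ∈ Finset.Icc 1 (t - 1), ∃ a ∈ A, b + i * d ≤ a ∧ a ≤ b + i * d + w

/-- `A ⊆ [1,n]` nearly contains no `(t,d,w)`-progression with `d` a power of two, `w n < d^2`. -/
def Avoids (t n : ℕ) (A : Finset ℕ) : Prop :=
  A ⊆ Finset.Icc 1 n ∧ ∀ j w : ℕ, w * n < (2 ^ j) ^ 2 → ¬ NearlyContains A t (2 ^ j) w

/-- The quantity `g_t(n)`: the maximum of `|A|/n` over the avoiding sets `A ⊆ [1,n]`. -/
noncomputable def g (t n : ℕ) : ℝ := sSup {x : ℝ | ∃ A : Finset ℕ, Avoids t n A ∧ x = A.card / n}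

/-- `H ⊆ {0, ..., M-1}` contains no progression of `t - 1` terms whose difference is a power of
two. -/
def PowerFree (t M : ℕ) (H : Finset ℕ) : Prop :=
  H ⊆ Finset.range M ∧ ∀ x e : ℕ, ¬ ∀ l : ℕ, l < t - 1 → x + l * 2 ^ e ∈ H

/-- The largest size of such a set. -/
noncomputable def r (t M : ℕ) : ℕ := sSup {m : ℕ | ∃ H : Finset ℕ, PowerFree t M H ∧ m = H.card}

/-- The infimum of the densities `r t M / M`, `M ≥ 1` (also their limit). -/
noncomputable def rho (t : ℕ) : ℝ := sInf ((fun M : ℕ => (r t M : ℝ) / M) '' Set.Ici 1)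

/-! ### `g` -/

theorem avoids_empty {t : ℕ} (ht : 3 ≤ t) (n : ℕ) : Avoids t n ∅ := by
  refine ⟨by simp, ?_⟩
  rintro j w _ ⟨b, hb⟩
  obtain ⟨a, ha, _⟩ := hb 1 (by rw [Finset.mem_Icc]; omega)
  simp at ha

theorem avoids_one {t n : ℕ} (ht : 3 ≤ t) (hn : 1 ≤ n) : Avoids t n {1} := by
  refine ⟨by simpa using hn, ?_⟩
  rintro j w hw ⟨b, hb⟩
  obtain ⟨a, ha, h1, _⟩ := hb 1 (by rw [Finset.mem_Icc]; omega)
  obtain ⟨a', ha', h2, _⟩ := hb 2 (by rw [Finset.mem_Icc]; omega)
  simp only [Finset.mem_singleton] at ha ha'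
  subst ha ha'
  have : 0 < 2 ^ j := by positivity
  omega

theorem finite_set (t n : ℕ) :
    {x : ℝ | ∃ A : Finset ℕ, Avoids t n A ∧ x = A.card / n}.Finite := by
  apply Set.Finite.subset (((Finset.Icc 1 n).powerset.image
    (fun A : Finset ℕ => ((A.card : ℝ) / n))).finite_toSet)
  rintro x ⟨A, hA, rfl⟩
  rw [Finset.mem_coe, Finset.mem_image]
  exact ⟨A, Finset.mem_powerset.2 hA.1, rfl⟩

theorem isGreatest {t : ℕ} (ht : 3 ≤ t) (n : ℕ) :
    IsGreatest {x : ℝ | ∃ A : Finset ℕ, Avoids t n A ∧ x = A.card / n} (g t n) := by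
  have hne : {x : ℝ | ∃ A : Finset ℕ, Avoids t n A ∧ x = A.card / n}.Nonempty :=
    ⟨_, ∅, avoids_empty ht n, rfl⟩
  exact ⟨hne.csSup_mem (finite_set t n), fun x hx => le_csSup (finite_set t n).bddAbove hx⟩

theorem avoids_iff {k n : ℕ} {A : Finset ℕ} :
    Avoids (k + 1) n A ↔ A ⊆ Finset.Icc 1 n ∧ Av k n A := by
  unfold Avoids Av NearlyContains
  rw [Nat.add_sub_cancel]

/-! ### `r` -/

theorem r_bdd (t M : ℕ) : ∀ m ∈ {m : ℕ | ∃ H : Finset ℕ, PowerFree t M H ∧ m = H.card}, m ≤ M := by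
  rintro m ⟨H, hH, rfl⟩
  calc H.card ≤ (Finset.range M).card := Finset.card_le_card hH.1
    _ = M := Finset.card_range M

theorem r_isGreatest {t : ℕ} (ht : 3 ≤ t) (M : ℕ) :
    IsGreatest {m : ℕ | ∃ H : Finset ℕ, PowerFree t M H ∧ m = H.card} (r t M) := by
  have hne : {m : ℕ | ∃ H : Finset ℕ, PowerFree t M H ∧ m = H.card}.Nonempty := by
    refine ⟨_, ∅, ⟨by simp, fun x e h => ?_⟩, rfl⟩
    have := h 0 (by omega)
    simp at this
  exact ⟨Nat.sSup_mem hne ⟨M, r_bdd t M⟩, fun m hm => le_csSup ⟨M, r_bdd t M⟩ hm⟩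

theorem r_le (t M : ℕ) (ht : 3 ≤ t) : r t M ≤ M := r_bdd t M _ (r_isGreatest ht M).1

theorem r_sub {t : ℕ} (ht : 3 ≤ t) (M M' : ℕ) : r t (M + M') ≤ r t M + r t M' := by
  classical
  obtain ⟨H, hH, hcard⟩ := (r_isGreatest ht (M + M')).1
  rw [hcard]
  obtain ⟨H₁, hH₁⟩ : ∃ H₁, H₁ = H.filter (fun x => x < M) := ⟨_, rfl⟩
  obtain ⟨H₂, hH₂⟩ : ∃ H₂, H₂ = (H.filter (fun x => ¬ x < M)).image (fun x => x - M) := ⟨_, rfl⟩
  have h1 : PowerFree t M H₁ := by
    refine ⟨?_, fun x e h => hH.2 x e (fun l hl => ?_)⟩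
    · intro x hx
      rw [hH₁, Finset.mem_filter] at hx
      exact Finset.mem_range.2 hx.2
    · have := h l hl
      rw [hH₁, Finset.mem_filter] at this
      exact this.1
  have h2 : PowerFree t M' H₂ := by
    refine ⟨?_, fun x e h => hH.2 (x + M) e (fun l hl => ?_)⟩
    · intro x hx
      rw [hH₂, Finset.mem_image] at hx
      obtain ⟨y, hy, rfl⟩ := hx
      rw [Finset.mem_filter] at hy
      have := Finset.mem_range.1 (hH.1 hy.1)
      rw [Finset.mem_range]
      omega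
    · have := h l hl
      rw [hH₂, Finset.mem_image] at this
      obtain ⟨y, hy, hyx⟩ := this
      rw [Finset.mem_filter] at hy
      have h3 : x + M + l * 2 ^ e = y := by omega
      rw [h3]
      exact hy.1
  have h3 : H.card = H₁.card + H₂.card := by
    rw [hH₁, hH₂, Finset.card_image_of_injOn, Finset.card_filter_add_card_filter_not]
    intro a ha b hb hab
    simp only [Finset.coe_filter, Set.mem_setOf_eq] at ha hb hab
    omega
  rw [h3]
  exact Nat.add_le_add ((r_isGreatest ht M).2 ⟨H₁, h1, rfl⟩) ((r_isGreatest ht M').2 ⟨H₂, h2, rfl⟩)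

theorem bddBelow (t : ℕ) : BddBelow (Set.range fun M : ℕ => (r t M : ℝ) / M) := by
  refine ⟨0, ?_⟩
  rintro x ⟨M, rfl⟩
  simp only
  positivity

theorem rho_tendsto {t : ℕ} (ht : 3 ≤ t) :
    Tendsto (fun M : ℕ => (r t M : ℝ) / M) atTop (𝓝 (rho t)) := by
  have hsub : Subadditive (fun M : ℕ => (r t M : ℝ)) := by
    intro m n
    simp only
    exact_mod_cast r_sub ht m n
  have h := hsub.tendsto_lim (bddBelow t)
  rw [Subadditive.lim] at h
  exact h

theorem rho_le {t : ℕ} (M : ℕ) (hM : 1 ≤ M) : rho t ≤ (r t M : ℝ) / M := by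
  refine csInf_le ⟨0, ?_⟩ ⟨M, hM, rfl⟩
  rintro x ⟨M', _, rfl⟩
  simp only
  positivity

theorem le_rho {t : ℕ} {x : ℝ} (h : ∀ M : ℕ, 1 ≤ M → x * M ≤ r t M) : x ≤ rho t := by
  refine le_csInf ⟨_, 1, Set.mem_Ici.2 le_rfl, rfl⟩ ?_
  rintro y ⟨M, hM, rfl⟩
  have hM' : (0 : ℝ) < M := by
    have := Set.mem_Ici.1 hM
    exact_mod_cast (by omega : 0 < M)
  simp only
  rw [le_div_iff₀ hM']
  exact h M hM

/-- residues modulo three -/
theorem r_three {t : ℕ} (ht : 3 ≤ t) (M : ℕ) : M ≤ 3 * r t M := by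
  classical
  obtain ⟨H, hH⟩ : ∃ H, H = (Finset.range M).filter (fun x => x % 3 = 0) := ⟨_, rfl⟩
  have h1 : PowerFree t M H := by
    refine ⟨by rw [hH]; exact Finset.filter_subset _ _, fun x e h => ?_⟩
    have h0 := h 0 (by omega)
    have h1 := h 1 (by omega)
    rw [hH, Finset.mem_filter] at h0 h1
    have h2 : 2 ^ e % 3 = 1 ∨ 2 ^ e % 3 = 2 := by
      clear h0 h1 h
      induction e with
      | zero => left; norm_num
      | succ e ih => rw [pow_succ]; omega
    omega
  have h2 := (r_isGreatest ht M).2 ⟨H, h1, rfl⟩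
  have h3 : M ≤ 3 * H.card := by
    have hsub : Finset.range M ⊆ H.biUnion (fun x => Finset.Ico x (x + 3)) := by
      intro x hx
      rw [Finset.mem_range] at hx
      rw [Finset.mem_biUnion]
      refine ⟨x - x % 3, ?_, ?_⟩
      · rw [hH, Finset.mem_filter, Finset.mem_range]
        omega
      · rw [Finset.mem_Ico]
        omega
    calc M = (Finset.range M).card := (Finset.card_range M).symm
      _ ≤ _ := Finset.card_le_card hsub
      _ ≤ ∑ x ∈ H, (Finset.Ico x (x + 3)).card := Finset.card_biUnion_le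
      _ = 3 * H.card := by
          rw [Finset.sum_congr rfl (g := fun _ => 3)]
          · rw [Finset.sum_const, smul_eq_mul]; ring
          · intro x _
            rw [Nat.card_Ico]; omega
  omega

/-- odd moduli -/
theorem hyp_odd {q k : ℕ} (hq : Odd q) (hq3 : 3 ≤ q) (hqk : q ≤ k) (y e : ℕ) :
    ∃ i : ℕ, i < k ∧ (y + i * 2 ^ e) % q = q - 1 := by
  have hcop : Nat.Coprime (2 ^ e) q := Nat.Coprime.pow_left e (Nat.coprime_two_left.2 hq)
  have hqpos : (0 : ℤ) < q := by exact_mod_cast (by omega : 0 < q)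
  have hcop' : IsCoprime ((2 : ℤ) ^ e) (q : ℤ) := by
    have := Nat.isCoprime_iff_coprime.2 hcop
    exact_mod_cast this
  obtain ⟨u, v, huv⟩ := hcop'
  obtain ⟨i, hi⟩ : ∃ i : ℕ, (i : ℤ) = ((-1 - y) * u) % q :=
    ⟨(((-1 - y) * u) % q).toNat, Int.toNat_of_nonneg (Int.emod_nonneg _ hqpos.ne')⟩
  have hiq : (i : ℤ) < q := by rw [hi]; exact Int.emod_lt_of_pos _ hqpos
  refine ⟨i, by omega, ?_⟩
  have hmod : ((y : ℤ) + i * 2 ^ e) % q = q - 1 := by
    have h1 : ((y : ℤ) + i * 2 ^ e) ≡ -1 [ZMOD q] := by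
      have h2 : (i : ℤ) ≡ (-1 - y) * u [ZMOD q] := by
        rw [hi]; exact Int.mod_modEq _ _
      have h3 : ((y : ℤ) + i * 2 ^ e) ≡ y + (-1 - y) * u * 2 ^ e [ZMOD q] :=
        Int.ModEq.add_left _ (h2.mul_right _)
      refine h3.trans ?_
      have h4 : (y : ℤ) + (-1 - y) * u * 2 ^ e = -1 + q * (v * (1 + y)) := by
        linear_combination (-1 - (y : ℤ)) * huv
      rw [h4]
      exact (Int.modEq_iff_dvd.2 ⟨-(v * (1 + y)), by ring⟩)
    have h5 : (-1 : ℤ) ≡ q - 1 [ZMOD q] := by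
      exact Int.modEq_iff_dvd.2 ⟨1, by ring⟩
    have h6 := h1.trans h5
    rw [Int.ModEq] at h6
    rw [h6]
    exact Int.emod_eq_of_lt (by omega) (by omega)
  have h7 : (((y + i * 2 ^ e) % q : ℕ) : ℤ) = ((q - 1 : ℕ) : ℤ) := by
    rw [Nat.cast_sub (by omega)]
    push_cast
    exact hmod
  exact_mod_cast h7

theorem r_odd {t q : ℕ} (hq : Odd q) (hq3 : 3 ≤ q) (hqt : q + 1 ≤ t) (M : ℕ) :
    (q - 1) * M ≤ q * r t M := by
  classical
  have ht : 3 ≤ t := by omega
  obtain ⟨H, hH⟩ : ∃ H, H = (Finset.range M).filter (fun x => ¬ x % q = q - 1) := ⟨_, rfl⟩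
  have h1 : PowerFree t M H := by
    refine ⟨by rw [hH]; exact Finset.filter_subset _ _, fun x e h => ?_⟩
    obtain ⟨i, hi, hmod⟩ := hyp_odd (k := t - 1) hq hq3 (by omega) x e
    have := h i hi
    rw [hH, Finset.mem_filter] at this
    exact this.2 hmod
  have h2 := (r_isGreatest ht M).2 ⟨H, h1, rfl⟩
  obtain ⟨H', hH'⟩ : ∃ H', H' = (Finset.range M).filter (fun x => x % q = q - 1) := ⟨_, rfl⟩
  have h3 : H'.card + H.card = M := by
    rw [hH, hH', Finset.card_filter_add_card_filter_not, Finset.card_range]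
  have h4 : q * H'.card ≤ M := by
    have hdisj : ∀ x ∈ H', ∀ y ∈ H', x ≠ y →
        Disjoint (Finset.Ico (x + 1 - q) (x + 1)) (Finset.Ico (y + 1 - q) (y + 1)) := by
      intro x hx y hy hxy
      rw [hH', Finset.mem_filter] at hx hy
      rw [Finset.disjoint_left]
      intro z hz hz'
      rw [Finset.mem_Ico] at hz hz'
      have e1 := Nat.div_add_mod x q
      have e2 := Nat.div_add_mod y q
      rw [hx.2] at e1
      rw [hy.2] at e2
      have h5 : x / q ≠ y / q := by
        intro h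
        rw [h] at e1
        omega
      rcases lt_or_gt_of_ne h5 with h | h
      · have : q * (x / q) + q ≤ q * (y / q) := by
          calc q * (x / q) + q = q * (x / q + 1) := by ring
            _ ≤ q * (y / q) := Nat.mul_le_mul_left _ h
        omega
      · have : q * (y / q) + q ≤ q * (x / q) := by
          calc q * (y / q) + q = q * (y / q + 1) := by ring
            _ ≤ q * (x / q) := Nat.mul_le_mul_left _ h
        omega
    calc q * H'.card = ∑ x ∈ H', (Finset.Ico (x + 1 - q) (x + 1)).card := by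
          rw [Finset.sum_congr rfl (g := fun _ => q)]
          · rw [Finset.sum_const, smul_eq_mul]; ring
          · intro x hx
            rw [hH', Finset.mem_filter] at hx
            have : x % q ≤ x := Nat.mod_le _ _
            rw [Nat.card_Ico]; omega
      _ = (H'.biUnion (fun x => Finset.Ico (x + 1 - q) (x + 1))).card :=
          (Finset.card_biUnion hdisj).symm
      _ ≤ (Finset.range M).card := by
          apply Finset.card_le_card
          intro z hz
          rw [Finset.mem_biUnion] at hz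
          obtain ⟨x, hx, hz⟩ := hz
          rw [hH', Finset.mem_filter, Finset.mem_range] at hx
          rw [Finset.mem_Ico] at hz
          rw [Finset.mem_range]
          omega
      _ = M := Finset.card_range M
  have h5 : q * H'.card + q * H.card = q * M := by rw [← h3]; ring
  have h6 : q * H.card ≤ q * r t M := Nat.mul_le_mul_left _ h2
  have h7 : (q - 1) * M + M = q * M := by
    rw [Nat.sub_mul, one_mul]
    have : M ≤ q * M := Nat.le_mul_of_pos_left _ (by omega)
    omega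
  omega

theorem hu {t M : ℕ} (ht : 3 ≤ t) (hM : r t M < M) : HU (t - 1) M (r t M) := by
  have h3 := r_three ht M
  refine ⟨by omega, hM, h3, fun H hH hno => ?_⟩
  refine (r_isGreatest ht M).2 ⟨H, ⟨hH, fun x e h => ?_⟩, rfl⟩
  rcases Nat.lt_or_ge (2 ^ e) M with he | he
  · exact hno x e he h
  · have := Finset.mem_range.1 (hH (h 1 (by omega)))
    omega

theorem r_small {t : ℕ} (ht : 4 ≤ t) : r t (t - 1) ≤ t - 2 := by
  obtain ⟨H, hH, hcard⟩ := (r_isGreatest (by omega : 3 ≤ t) (t - 1)).1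
  rw [hcard]
  by_contra hcon
  push Not at hcon
  have h1 : H = Finset.range (t - 1) := by
    apply Finset.eq_of_subset_of_card_le hH.1
    rw [Finset.card_range]
    omega
  refine hH.2 0 0 (fun l hl => ?_)
  rw [h1, Finset.mem_range]
  simpa using hl

theorem r_small3 : r 3 3 ≤ 1 := by
  obtain ⟨H, hH, hcard⟩ := (r_isGreatest (le_refl 3) 3).1
  rw [hcard]
  by_contra hcon
  push Not at hcon
  obtain ⟨a, ha, b, hb, hab⟩ := Finset.one_lt_card.1 hcon
  have h3 : ∀ x ∈ H, ∀ y ∈ H, x < y → False := by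
    intro x hx y hy hxy
    have hx3 := Finset.mem_range.1 (hH.1 hx)
    have hy3 := Finset.mem_range.1 (hH.1 hy)
    have hcase : y = x + 1 ∨ y = x + 2 := by omega
    rcases hcase with h | h
    · refine hH.2 x 0 (fun l hl => ?_)
      have hl2 : l < 2 := by omega
      interval_cases l
      · simpa using hx
      · subst h; simpa using hy
    · refine hH.2 x 1 (fun l hl => ?_)
      have hl2 : l < 2 := by omega
      interval_cases l
      · simpa using hx
      · subst h; simpa using hy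
  rcases lt_or_gt_of_ne hab with h | h
  · exact h3 a ha b hb h
  · exact h3 b hb a ha h

/-! ### the values of `rho` -/

theorem rho_ge {t : ℕ} (ht : 3 ≤ t) : (1 : ℝ) / 3 ≤ rho t := by
  apply le_rho
  intro M _
  have : (M : ℝ) ≤ 3 * r t M := by exact_mod_cast r_three ht M
  linarith

theorem rho_ge_odd {t q : ℕ} (hq : Odd q) (hq3 : 3 ≤ q) (hqt : q + 1 ≤ t) :
    ((q : ℝ) - 1) / q ≤ rho t := by
  apply le_rho
  intro M _
  have hqR : (0 : ℝ) < q := by exact_mod_cast (by omega : 0 < q)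
  have h1 : (((q - 1) * M : ℕ) : ℝ) ≤ ((q * r t M : ℕ) : ℝ) := by
    exact_mod_cast r_odd hq hq3 hqt M
  rw [Nat.cast_mul, Nat.cast_mul, Nat.cast_sub (by omega)] at h1
  rw [div_mul_eq_mul_div, div_le_iff₀ hqR]
  push_cast at h1
  linarith

theorem rho_three : rho 3 = 1 / 3 := by
  apply le_antisymm _ (rho_ge le_rfl)
  refine (rho_le 3 (by norm_num)).trans ?_
  have h1 : ((r 3 3 : ℕ) : ℝ) ≤ 1 := by exact_mod_cast r_small3
  push_cast
  linarith

theorem rho_up {t : ℕ} (ht : 4 ≤ t) : rho t ≤ ((t : ℝ) - 2) / ((t : ℝ) - 1) := by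
  refine (rho_le (t - 1) (by omega)).trans ?_
  have h1 : ((r t (t - 1) : ℕ) : ℝ) ≤ ((t - 2 : ℕ) : ℝ) := by exact_mod_cast r_small ht
  rw [Nat.cast_sub (by omega)] at h1 ⊢
  push_cast at h1 ⊢
  have : (0 : ℝ) < (t : ℝ) - 1 := by
    have : (4 : ℝ) ≤ t := by exact_mod_cast ht
    linarith
  exact div_le_div_of_nonneg_right h1 this.le

theorem rho_even {t : ℕ} (ht : 4 ≤ t) (hev : Even t) : rho t = ((t : ℝ) - 2) / ((t : ℝ) - 1) := by
  apply le_antisymm (rho_up ht)
  have hodd : Odd (t - 1) := by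
    obtain ⟨m, hm⟩ := hev
    exact ⟨m - 1, by omega⟩
  have h1 := rho_ge_odd hodd (by omega) (by omega : t - 1 + 1 ≤ t)
  rw [Nat.cast_sub (by omega)] at h1
  push_cast at h1
  rw [show (t : ℝ) - 1 - 1 = (t : ℝ) - 2 by ring] at h1
  exact h1

theorem rho_odd {t : ℕ} (ht : 5 ≤ t) (hodd : Odd t) : ((t : ℝ) - 3) / ((t : ℝ) - 2) ≤ rho t := by
  have hodd' : Odd (t - 2) := by
    obtain ⟨m, hm⟩ := hodd
    exact ⟨m - 1, by omega⟩
  have h1 := rho_ge_odd hodd' (by omega) (by omega : t - 2 + 1 ≤ t)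
  rw [Nat.cast_sub (by omega)] at h1
  push_cast at h1
  rw [show (t : ℝ) - 2 - 1 = (t : ℝ) - 3 by ring] at h1
  exact h1

theorem rho_lt_one {t : ℕ} (ht : 3 ≤ t) : rho t < 1 := by
  rcases Nat.lt_or_ge t 4 with h | h
  · have : t = 3 := by omega
    subst this
    rw [rho_three]
    norm_num
  · refine lt_of_le_of_lt (rho_up h) ?_
    have : (4 : ℝ) ≤ t := by exact_mod_cast h
    rw [div_lt_one (by linarith)]
    linarith

/-! ### analytic form of the bounds -/

/-- `ρ^K` as a power of `2^K`. -/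
theorem pow_eq {ρ : ℝ} (hρ : 0 < ρ) (K : ℕ) :
    ρ ^ K = ((2 : ℝ) ^ K) ^ (Real.log ρ / Real.log 2) := by
  have h2 : 0 < Real.log 2 := Real.log_pos (by norm_num)
  rw [Real.rpow_def_of_pos (by positivity), Real.log_pow]
  have h1 : ρ ^ K = Real.exp (K * Real.log ρ) := by
    rw [Real.exp_nat_mul, Real.exp_log hρ]
  rw [h1]
  congr 1
  field_simp

theorem lower {k : ℕ} {ρ : ℝ} (hk : 2 ≤ k) (hρ0 : 0 < ρ) (hρ1 : ρ ≤ 1)
    (hex : ∀ M : ℕ, ∃ Y : Finset ℕ, Y ⊆ Finset.range M ∧ Gen.PFree k Y ∧ ρ * M ≤ Y.card) :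
    ∃ c : ℝ, 0 < c ∧ ∀ n : ℕ, 2 ≤ n →
    c * Real.log n ^ (Real.log ρ / Real.log 2) ≤ g (k + 1) n := by
  obtain ⟨c₀, hc₀, N₀, hlow⟩ := Gen.low hk hρ0 hρ1 hex
  have h2 : 0 < Real.log 2 := Real.log_pos (by norm_num)
  obtain ⟨e, he⟩ : ∃ e : ℝ, e = -(Real.log ρ / Real.log 2) := ⟨_, rfl⟩
  have he' : Real.log ρ / Real.log 2 = -e := by rw [he]; ring
  have he0 : 0 ≤ e := by
    rw [he, neg_nonneg]
    exact div_nonpos_of_nonpos_of_nonneg (Real.log_nonpos hρ0.le hρ1) h2.le
  rw [he']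
  refine ⟨min (c₀ / 2 * Real.log 2 ^ e) (1 / 2 ^ N₀ * Real.log 2 ^ e), by positivity,
    fun n hn => ?_⟩
  have hnR : (0 : ℝ) < n := by exact_mod_cast (by omega : 0 < n)
  have hlogn : Real.log 2 ≤ Real.log n := by
    apply Real.log_le_log (by norm_num)
    exact_mod_cast hn
  have hlogpos : 0 < Real.log n := by linarith
  rcases lt_or_ge (Nat.log 2 n) N₀ with hN | hN
  · -- small `n`
    have h3 : n < 2 ^ N₀ := by
      apply lt_of_lt_of_le (Nat.lt_pow_succ_log_self (b := 2) (by norm_num) n)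
      exact Nat.pow_le_pow_right (by norm_num) (by omega)
    have h4 : (1 : ℝ) / n ≤ g (k + 1) n := by
      refine (isGreatest (by omega) n).2 ⟨{1}, avoids_one (by omega) (by omega), ?_⟩
      simp
    refine le_trans ?_ h4
    have h5 : Real.log n ^ (-e) ≤ Real.log 2 ^ (-e) :=
      Real.rpow_le_rpow_of_nonpos h2 hlogn (by linarith)
    calc min (c₀ / 2 * Real.log 2 ^ e) (1 / 2 ^ N₀ * Real.log 2 ^ e) * Real.log n ^ (-e)
        ≤ (1 / 2 ^ N₀ * Real.log 2 ^ e) * Real.log 2 ^ (-e) :=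
          mul_le_mul (min_le_right _ _) h5 (by positivity) (by positivity)
      _ = 1 / 2 ^ N₀ := by
          rw [mul_assoc, ← Real.rpow_add h2, add_neg_cancel, Real.rpow_zero, mul_one]
      _ ≤ 1 / n := by
          apply one_div_le_one_div_of_le hnR
          exact_mod_cast h3.le
  · obtain ⟨N, hNd⟩ : ∃ N : ℕ, N = Nat.log 2 n := ⟨_, rfl⟩
    rw [← hNd] at hN
    have h3 : 2 ^ N ≤ n := by rw [hNd]; exact Nat.pow_log_le_self 2 (by omega)
    have h4 : n < 2 ^ (N + 1) := by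
      rw [hNd]; exact Nat.lt_pow_succ_log_self (b := 2) (by norm_num) n
    have hN1 : 1 ≤ N := by
      rw [hNd]
      exact Nat.log_pos (by norm_num) hn
    obtain ⟨A, hA1, hA2, hA3⟩ := hlow N hN n h3
    have h5 : (A.card : ℝ) / n ≤ g (k + 1) n := by
      refine (isGreatest (by omega) n).2 ⟨A, ?_, rfl⟩
      rw [avoids_iff]
      exact ⟨hA1, hA2⟩
    refine le_trans ?_ h5
    obtain ⟨K, hK⟩ : ∃ K : ℕ, K = Nat.log 2 N := ⟨_, rfl⟩
    rw [← hK] at hA3
    have hKN : 2 ^ K ≤ N := by rw [hK]; exact Nat.pow_log_le_self 2 (by omega)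
    have h6 : ((2 : ℝ) ^ K) ≤ Real.log n / Real.log 2 := by
      have h7 : (2 : ℝ) ^ K ≤ N := by exact_mod_cast hKN
      refine h7.trans ?_
      rw [le_div_iff₀ h2, ← Real.log_pow]
      apply Real.log_le_log (by positivity)
      exact_mod_cast h3
    have h8 : (Real.log n / Real.log 2) ^ (-e) ≤ ρ ^ K := by
      rw [pow_eq hρ0, he']
      exact Real.rpow_le_rpow_of_nonpos (by positivity) h6 (by linarith)
    have h9 : (Real.log n / Real.log 2) ^ (-e) = Real.log n ^ (-e) * Real.log 2 ^ e := by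
      rw [Real.div_rpow hlogpos.le h2.le, Real.rpow_neg h2.le e, div_inv_eq_mul]
    rw [le_div_iff₀ hnR]
    have h10 : (n : ℝ) ≤ 2 * 2 ^ N := by
      have : n ≤ 2 * 2 ^ N := by rw [pow_succ] at h4; omega
      exact_mod_cast this
    calc min (c₀ / 2 * Real.log 2 ^ e) (1 / 2 ^ N₀ * Real.log 2 ^ e) * Real.log n ^ (-e) * n
        ≤ (c₀ / 2 * Real.log 2 ^ e) * Real.log n ^ (-e) * (2 * 2 ^ N) := by
          apply mul_le_mul _ h10 hnR.le (by positivity)
          exact mul_le_mul_of_nonneg_right (min_le_left _ _) (by positivity)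
      _ = c₀ * 2 ^ N * (Real.log n ^ (-e) * Real.log 2 ^ e) := by ring
      _ ≤ c₀ * 2 ^ N * ρ ^ K := by
          rw [← h9]
          exact mul_le_mul_of_nonneg_left h8 (by positivity)
      _ ≤ A.card := hA3

theorem upper {k M R : ℕ} (hk : 2 ≤ k) (hU : HU k M R) : ∃ C : ℝ, 0 < C ∧ ∀ n : ℕ, 2 ≤ n →
    g (k + 1) n ≤ C * Real.log n ^ (Real.log ((R : ℝ) / M) / Real.log 2) := by
  obtain ⟨C, hC, hup⟩ := up hU
  obtain ⟨hR0, hRM, -, -⟩ := hU
  have hRR : (0 : ℝ) < R := by exact_mod_cast hR0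
  have hMR : (0 : ℝ) < M := by exact_mod_cast (by omega : 0 < M)
  have h2 : 0 < Real.log 2 := Real.log_pos (by norm_num)
  have h21 : Real.log 2 ≤ 1 := by
    have := Real.log_two_lt_d9
    linarith
  have hρ0 : 0 < (R : ℝ) / M := by positivity
  have hρ1 : (R : ℝ) / M ≤ 1 := by
    rw [div_le_one hMR]
    exact_mod_cast hRM.le
  obtain ⟨e, he⟩ : ∃ e : ℝ, e = -(Real.log ((R : ℝ) / M) / Real.log 2) := ⟨_, rfl⟩
  have he' : Real.log ((R : ℝ) / M) / Real.log 2 = -e := by rw [he]; ring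
  have he0 : 0 ≤ e := by
    rw [he, neg_nonneg]
    exact div_nonpos_of_nonpos_of_nonneg (Real.log_nonpos hρ0.le hρ1) h2.le
  rw [he']
  refine ⟨2 * C * 2 ^ e, by positivity, fun n hn => ?_⟩
  have hnR : (0 : ℝ) < n := by exact_mod_cast (by omega : 0 < n)
  have hlogn : Real.log 2 ≤ Real.log n := by
    apply Real.log_le_log (by norm_num)
    exact_mod_cast hn
  have hlogpos : 0 < Real.log n := by linarith
  obtain ⟨A, hA, hgA⟩ := (isGreatest (t := k + 1) (by omega) n).1
  rw [avoids_iff] at hA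
  rw [hgA]
  obtain ⟨N, hNd⟩ : ∃ N : ℕ, N = Nat.log 2 n + 1 := ⟨_, rfl⟩
  have h3 : n < 2 ^ N := by
    rw [hNd]; exact Nat.lt_pow_succ_log_self (b := 2) (by norm_num) n
  have h4 : 2 ^ N ≤ 2 * n := by
    have := Nat.pow_log_le_self 2 (x := n) (by omega)
    rw [hNd, pow_succ]
    omega
  have h5 := hup N (by omega) n h3 A hA.1 hA.2
  obtain ⟨K, hK⟩ : ∃ K : ℕ, K = Nat.log 2 N := ⟨_, rfl⟩
  rw [← hK] at h5
  have hKN : N < 2 ^ (K + 1) := by
    rw [hK]; exact Nat.lt_pow_succ_log_self (b := 2) (by norm_num) N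
  have h6 : Real.log n / 2 ≤ (2 : ℝ) ^ K := by
    have h7 : (N : ℝ) ≤ 2 * 2 ^ K := by
      have : N ≤ 2 * 2 ^ K := by rw [pow_succ] at hKN; omega
      exact_mod_cast this
    have h8 : Real.log n ≤ N := by
      calc Real.log n ≤ Real.log ((2 : ℝ) ^ N) := by
            apply Real.log_le_log hnR
            exact_mod_cast h3.le
        _ = N * Real.log 2 := by rw [Real.log_pow]
        _ ≤ N * 1 := mul_le_mul_of_nonneg_left h21 (by positivity)
        _ = N := mul_one _
    linarith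
  have h9 : ((R : ℝ) / M) ^ K ≤ (Real.log n / 2) ^ (-e) := by
    rw [pow_eq hρ0, he']
    exact Real.rpow_le_rpow_of_nonpos (by positivity) h6 (by linarith)
  have h10 : (Real.log n / 2) ^ (-e) = Real.log n ^ (-e) * 2 ^ e := by
    rw [Real.div_rpow hlogpos.le (by norm_num), Real.rpow_neg (by norm_num : (0 : ℝ) ≤ 2) e,
      div_inv_eq_mul]
  have h11 : (2 : ℝ) ^ N ≤ 2 * n := by exact_mod_cast h4
  rw [div_le_iff₀ hnR]
  calc (A.card : ℝ) ≤ C * 2 ^ N * ((R : ℝ) / M) ^ K := h5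
    _ ≤ C * (2 * n) * (Real.log n ^ (-e) * 2 ^ e) := by
        rw [← h10]
        apply mul_le_mul _ h9 (by positivity) (by positivity)
        exact mul_le_mul_of_nonneg_left h11 hC.le
    _ = 2 * C * 2 ^ e * Real.log n ^ (-e) * n := by ring

theorem lower_t {t : ℕ} (ht : 3 ≤ t) : ∃ c : ℝ, 0 < c ∧ ∀ n : ℕ, 2 ≤ n →
    c * Real.log n ^ (Real.log (rho t) / Real.log 2) ≤ g t n := by
  obtain ⟨k, rfl⟩ : ∃ k : ℕ, t = k + 1 := ⟨t - 1, by omega⟩
  have hρ0 : 0 < rho (k + 1) := lt_of_lt_of_le (by norm_num) (rho_ge ht)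
  refine lower (by omega) hρ0 (rho_lt_one ht).le (fun M => ?_)
  obtain ⟨H, hH, hcard⟩ := (r_isGreatest ht M).1
  refine ⟨H, hH.1, ?_, ?_⟩
  · intro x e h
    refine hH.2 x e (fun l hl => h l (by omega))
  · rw [← hcard]
    rcases Nat.eq_zero_or_pos M with h0 | h0
    · subst h0
      simp
    · have h1 := rho_le (t := k + 1) M h0
      rwa [le_div_iff₀ (by exact_mod_cast h0)] at h1

theorem upper_t {t M : ℕ} (ht : 3 ≤ t) (hM : r t M < M) : ∃ C : ℝ, 0 < C ∧ ∀ n : ℕ, 2 ≤ n →
    g t n ≤ C * Real.log n ^ (Real.log ((r t M : ℝ) / M) / Real.log 2) := by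
  have h := upper (k := t - 1) (by omega) (hu ht hM)
  rwa [show t - 1 + 1 = t by omega] at h

theorem log_tendsto : Tendsto (fun n : ℕ => Real.log (Real.log (n : ℝ))) atTop atTop :=
  Real.tendsto_log_atTop.comp (Real.tendsto_log_atTop.comp tendsto_natCast_atTop_atTop)

/-- the exact exponent -/
theorem exponent {t : ℕ} (ht : 3 ≤ t) :
    Tendsto (fun n : ℕ => Real.log (g t n) / Real.log (Real.log n)) atTop
      (𝓝 (Real.log (rho t) / Real.log 2)) := by
  have h2 : 0 < Real.log 2 := Real.log_pos (by norm_num)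
  have hρ0 : 0 < rho t := lt_of_lt_of_le (by norm_num) (rho_ge ht)
  have hρ1 := rho_lt_one ht
  obtain ⟨c, hc, hlow⟩ := lower_t ht
  rw [Metric.tendsto_atTop]
  intro ε hε
  -- choice of `M`
  obtain ⟨M, hM1, hM2, hM3⟩ : ∃ M : ℕ, 1 ≤ M ∧ (r t M : ℝ) / M < 1 ∧
      (r t M : ℝ) / M < rho t * Real.exp (Real.log 2 * ε / 2) := by
    have hlt : rho t < min 1 (rho t * Real.exp (Real.log 2 * ε / 2)) := by
      apply lt_min hρ1
      have : 1 < Real.exp (Real.log 2 * ε / 2) := by
        rw [Real.one_lt_exp_iff]; positivity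
      nlinarith
    obtain ⟨y, ⟨M, hM, rfl⟩, hy⟩ := exists_lt_of_csInf_lt
      (s := ((fun M : ℕ => (r t M : ℝ) / M) '' Set.Ici 1)) ⟨_, 1, Set.mem_Ici.2 le_rfl, rfl⟩ hlt
    exact ⟨M, hM, lt_of_lt_of_le hy (min_le_left _ _), lt_of_lt_of_le hy (min_le_right _ _)⟩
  have hMR : (0 : ℝ) < M := by exact_mod_cast hM1
  have hrM : r t M < M := by
    rw [div_lt_one hMR] at hM2
    exact_mod_cast hM2
  have hrpos : (0 : ℝ) < r t M := by
    have := r_three ht M
    exact_mod_cast (by omega : 0 < r t M)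
  obtain ⟨C, hC, hup⟩ := upper_t ht hrM
  have hexpM : Real.log ((r t M : ℝ) / M) / Real.log 2 ≤ Real.log (rho t) / Real.log 2 + ε / 2 := by
    have h5 : Real.log ((r t M : ℝ) / M) ≤ Real.log (rho t) + Real.log 2 * ε / 2 := by
      rw [← Real.log_exp (Real.log 2 * ε / 2), ← Real.log_mul hρ0.ne' (Real.exp_pos _).ne']
      exact Real.log_le_log (by positivity) hM3.le
    calc Real.log ((r t M : ℝ) / M) / Real.log 2
        ≤ (Real.log (rho t) + Real.log 2 * ε / 2) / Real.log 2 :=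
          div_le_div_of_nonneg_right h5 h2.le
      _ = Real.log (rho t) / Real.log 2 + ε / 2 := by field_simp
  obtain ⟨B, hB⟩ : ∃ B : ℝ, B = |Real.log c| + |Real.log C| + 1 := ⟨_, rfl⟩
  have hB0 : 0 < B := by rw [hB]; positivity
  obtain ⟨n₁, hn₁⟩ := eventually_atTop.1 (log_tendsto.eventually_ge_atTop (4 * B / ε + 1))
  refine ⟨max n₁ 2, fun n hn => ?_⟩
  have hn2 : 2 ≤ n := le_trans (le_max_right _ _) hn
  have hL := hn₁ n (le_trans (le_max_left _ _) hn)
  obtain ⟨L, hLd⟩ : ∃ L : ℝ, L = Real.log (Real.log n) := ⟨_, rfl⟩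
  rw [← hLd] at hL ⊢
  have hL0 : 0 < L := by
    have : 0 < 4 * B / ε := by positivity
    linarith
  have hBL : B ≤ ε / 4 * L := by
    have h6 : 4 * B / ε ≤ L := by linarith
    rw [div_le_iff₀ hε] at h6
    linarith
  have hlogn : 0 < Real.log n := by
    apply Real.log_pos
    exact_mod_cast (by omega : 1 < n)
  have hlow' := hlow n hn2
  have hup' := hup n hn2
  have hgpos : 0 < g t n := lt_of_lt_of_le (by positivity) hlow'
  have e1 : Real.log c + Real.log (rho t) / Real.log 2 * L ≤ Real.log (g t n) := by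
    have := Real.log_le_log (by positivity) hlow'
    rwa [Real.log_mul hc.ne' (by positivity), Real.log_rpow hlogn, ← hLd] at this
  have e2 : Real.log (g t n) ≤ Real.log C + Real.log ((r t M : ℝ) / M) / Real.log 2 * L := by
    have := Real.log_le_log hgpos hup'
    rwa [Real.log_mul hC.ne' (by positivity), Real.log_rpow hlogn, ← hLd] at this
  have e3 : Real.log ((r t M : ℝ) / M) / Real.log 2 * L ≤
      (Real.log (rho t) / Real.log 2 + ε / 2) * L := mul_le_mul_of_nonneg_right hexpM hL0.le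
  have a1 := neg_abs_le (Real.log c)
  have a2 := le_abs_self (Real.log C)
  have a3 := abs_nonneg (Real.log c)
  have a4 := abs_nonneg (Real.log C)
  rw [Real.dist_eq, abs_lt]
  constructor
  · have h7 : Real.log (rho t) / Real.log 2 - ε < Real.log (g t n) / L := by
      rw [lt_div_iff₀ hL0]
      have : 0 < ε * L := by positivity
      nlinarith
    linarith
  · have h7 : Real.log (g t n) / L < Real.log (rho t) / Real.log 2 + ε := by
      rw [div_lt_iff₀ hL0]
      have : 0 < ε * L := by positivity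
      nlinarith
    linarith

/-- The inequality of Q1 fails for all large `n`, since `g_t(n)` is at least a power of
`log n`. -/
theorem tendsto_of_lower {t : ℕ} {c e : ℝ} (hc : 0 < c)
    (h : ∀ n : ℕ, 2 ≤ n → c * Real.log n ^ e ≤ g t n) :
    Tendsto (fun n : ℕ => g t n * Real.log n ^ Real.log (Real.log n)) atTop atTop := by
  have h1 : Tendsto (fun n : ℕ => Real.log (n : ℝ)) atTop atTop :=
    Real.tendsto_log_atTop.comp tendsto_natCast_atTop_atTop
  have h3 : Tendsto (fun n : ℕ => c * Real.log (n : ℝ)) atTop atTop :=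
    h1.const_mul_atTop hc
  refine tendsto_atTop_mono' atTop ?_ h3
  filter_upwards [log_tendsto.eventually_ge_atTop (1 - e), h1.eventually_ge_atTop 1,
    eventually_ge_atTop 2] with n hn1 hn2 hn3
  have hpos : 0 < Real.log (n : ℝ) := by linarith
  calc c * Real.log (n : ℝ) = c * Real.log n ^ e * Real.log n ^ (1 - e) := by
        rw [mul_assoc, ← Real.rpow_add hpos]
        congr 1
        rw [show e + (1 - e) = 1 by ring, Real.rpow_one]
    _ ≤ c * Real.log n ^ e * Real.log n ^ Real.log (Real.log n) := by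
        apply mul_le_mul_of_nonneg_left _ (by positivity)
        exact Real.rpow_le_rpow_of_exponent_le hn2 hn1
    _ ≤ g t n * Real.log n ^ Real.log (Real.log n) :=
        mul_le_mul_of_nonneg_right (h n hn3) (by positivity)

/-- **The order of magnitude of `g_t(n)` for every `t ≥ 3`.** -/
theorem result (t : ℕ) (ht : 3 ≤ t) :
    -- `g t n` and `r t M` are maxima, and `rho t` is the limit of `r t M / M`
    (∀ n : ℕ, IsGreatest {x : ℝ | ∃ A : Finset ℕ, Avoids t n A ∧ x = A.card / n} (g t n)) ∧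
    (∀ M : ℕ, IsGreatest {m : ℕ | ∃ H : Finset ℕ, PowerFree t M H ∧ m = H.card} (r t M)) ∧
    Tendsto (fun M : ℕ => (r t M : ℝ) / M) atTop (𝓝 (rho t)) ∧
    -- the values of `rho t`
    (t = 3 → rho t = 1 / 3) ∧
    (4 ≤ t → Even t → rho t = ((t : ℝ) - 2) / ((t : ℝ) - 1)) ∧
    (5 ≤ t → Odd t → ((t : ℝ) - 3) / ((t : ℝ) - 2) ≤ rho t ∧
      rho t ≤ ((t : ℝ) - 2) / ((t : ℝ) - 1)) ∧
    -- `g_t(n) = (log n)^(log_2 (rho t) + o(1))`
    Tendsto (fun n : ℕ => Real.log (g t n) / Real.log (Real.log n)) atTop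
      (𝓝 (Real.log (rho t) / Real.log 2)) ∧
    -- the lower bound without `o(1)`
    (∃ c : ℝ, 0 < c ∧ ∀ n : ℕ, 2 ≤ n →
      c * Real.log n ^ (Real.log (rho t) / Real.log 2) ≤ g t n) ∧
    -- the upper bound without `o(1)`, for `t = 3` and all even `t`
    (t = 3 ∨ Even t → ∃ C : ℝ, 0 < C ∧ ∀ n : ℕ, 2 ≤ n →
      g t n ≤ C * Real.log n ^ (Real.log (rho t) / Real.log 2)) ∧
    -- the inequality of Q1 fails for all large `n`
    Tendsto (fun n : ℕ => g t n * Real.log n ^ Real.log (Real.log n)) atTop atTop := by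
  obtain ⟨c, hc, hlow⟩ := lower_t ht
  refine ⟨fun n => isGreatest ht n, fun M => r_isGreatest ht M, rho_tendsto ht, ?_, ?_, ?_,
    exponent ht, ⟨c, hc, hlow⟩, ?_, tendsto_of_lower hc hlow⟩
  · intro h
    rw [h]
    exact rho_three
  · intro h1 h2
    exact rho_even h1 h2
  · intro h1 h2
    exact ⟨rho_odd h1 h2, rho_up (by omega)⟩
  · intro h
    rcases h with h | h
    · subst h
      have h1 := r_small3
      have h2 := r_three (le_refl 3) 3
      have h3 : r 3 3 = 1 := by omega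
      obtain ⟨C, hC, hup⟩ := upper_t (M := 3) (le_refl 3) (by omega)
      refine ⟨C, hC, fun n hn => ?_⟩
      have := hup n hn
      rw [h3] at this
      rw [rho_three]
      push_cast at this
      exact this
    · have h4 : 4 ≤ t := by
        obtain ⟨m, hm⟩ := h
        omega
      have h1 := r_small h4
      have h2 : (t - 1 - 1) * (t - 1) ≤ (t - 1) * r t (t - 1) := by
        apply r_odd _ (by omega) (by omega) (t - 1)
        obtain ⟨m, hm⟩ := h
        exact ⟨m - 1, by omega⟩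
      have h3 : r t (t - 1) = t - 2 := by
        have h5 : t - 1 - 1 ≤ r t (t - 1) := by
          rw [Nat.mul_comm] at h2
          exact Nat.le_of_mul_le_mul_left h2 (by omega)
        omega
      obtain ⟨C, hC, hup⟩ := upper_t (M := t - 1) ht (by omega)
      refine ⟨C, hC, fun n hn => ?_⟩
      have := hup n hn
      rw [h3, Nat.cast_sub (by omega), Nat.cast_sub (by omega)] at this
      push_cast at this
      rw [rho_even h4 h]
      exact this

end Pool.Agent.Results.MP_0426f4_nt.ExactOrder
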